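import Pool.Agent.helper968_kim.Defs
import Mathlib.Data.Fintype.Order
import Mathlib.Data.Set.Card
import Mathlib.Data.Fintype.Sum
import Mathlib.Data.Finite.Sum

/-!
Kim-forking of a formula over unions of chains of models, for theories in which Kim-independence
over models is algebraic independence.

The definitions of `Fml`, `KimDivides`, `KimForks`, `IsMonster` are in
`Pool.Agent.helper968_kim.Defs` (namespace `SKF`).
-/

namespace Pool.Agent.Results.MP_d72a0c_lc.AlgebraicKimChain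

open FirstOrder FirstOrder.Language Cardinal SKF

variable {L : FirstOrder.Language.{0, 0}} {U : Type} [L.Structure U] {n m : ℕ}

/-- `u` is algebraic over `A`: it satisfies a formula over `A` with finitely many solutions. -/
def InAcl (L : FirstOrder.Language.{0, 0}) [L.Structure U] (A : Set U) (u : U) : Prop :=
  ∃ θ : Fml L 1 U, θ.Over A ∧ θ.Holds (fun _ => u) ∧ {v : U | θ.Holds fun _ => v}.Finite

/-- `c` is Kim-independent from `a` over `M`: no formula in `tp(c / M a)` Kim-forks over `M`. -/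
def KimIndep (L : FirstOrder.Language.{0, 0}) [L.Structure U] (M : Set U) (c : Fin n → U)
    (a : Fin m → U) : Prop :=
  ∀ θ : Fml L n U, θ.Over (M ∪ Set.range a) → θ.Holds c → ¬ KimForks M θ

/-- `c` is algebraically independent from `a` over `M`: `acl(M c) ∩ acl(M a) ⊆ M`. -/
def AlgIndep (L : FirstOrder.Language.{0, 0}) [L.Structure U] (M : Set U) (c : Fin n → U)
    (a : Fin m → U) : Prop :=
  ∀ u, InAcl L (M ∪ Set.range c) u → InAcl L (M ∪ Set.range a) u → u ∈ M

theorem compact {κ : Cardinal.{0}} (hs : IsSaturated L κ U) {A : Set U} (hA : #A < κ)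
    (ψ : Fml L n U) (hψ : ψ.Over A) (Ξ : Set (Fml L n U)) (hΞ : ∀ ξ ∈ Ξ, ξ.Over A)
    (hcov : ∀ c, ψ.Holds c → ∃ ξ ∈ Ξ, ξ.Holds c) :
    ∃ s ⊆ Ξ, s.Finite ∧ ∀ c, ψ.Holds c → ∃ ξ ∈ s, ξ.Holds c := by
  classical
  have hnf : ¬ FinSat (insert ψ (Fml.neg '' Ξ)) := by
    intro hf
    obtain ⟨c, hc⟩ := hs A hA n _ (by
      rintro θ (rfl | ⟨ξ, hξ, rfl⟩)
      · exact hψ
      · exact hΞ ξ hξ) hf
    obtain ⟨ξ, hξ, hh⟩ := hcov c (hc ψ (by simp))
    have := hc ξ.neg (Or.inr ⟨ξ, hξ, rfl⟩)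
    simp only [Fml.Holds, Fml.neg, Formula.realize_not] at this hh
    exact this hh
  simp only [FinSat, not_forall] at hnf
  obtain ⟨s', hfin, hsub, hno⟩ := hnf
  have hg : ∀ x : Fml L n U, ∃ ξ : Fml L n U, x ∈ Fml.neg '' Ξ → ξ ∈ Ξ ∧ ξ.neg = x := by
    intro x
    by_cases h : x ∈ Fml.neg '' Ξ
    · obtain ⟨ξ, h1, h2⟩ := h
      exact ⟨ξ, fun _ => ⟨h1, h2⟩⟩
    · exact ⟨ψ, fun h' => absurd h' h⟩
  choose g hg using hg
  refine ⟨g '' (s' ∩ (Fml.neg '' Ξ)), ?_, (hfin.inter_of_left _).image g, ?_⟩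
  · rintro _ ⟨x, hx, rfl⟩
    exact (hg x hx.2).1
  · intro c hc
    by_contra hcon
    push Not at hcon
    refine hno ⟨c, fun x hx => ?_⟩
    rcases hsub hx with rfl | hx2
    · exact hc
    · have h1 := hcon (g x) ⟨x, ⟨hx, hx2⟩, rfl⟩
      rw [← (hg x hx2).2]
      simp only [Fml.Holds, Fml.neg, Formula.realize_not]
      exact h1

/-- `α(y, z)` has at most `r` solutions `y`. -/
noncomputable def atMost {γ : Type} (r : ℕ) (α : L.Formula (Fin 1 ⊕ γ)) : L.Formula γ :=
  (Formula.iExs (Fin (r + 1))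
    ((Formula.iInf fun j : Fin (r + 1) =>
      (α.relabel (Sum.elim (fun _ => Sum.inr j) Sum.inl) : L.Formula (γ ⊕ Fin (r + 1)))) ⊓
    (Formula.iInf fun p : {p : Fin (r + 1) × Fin (r + 1) // p.1 ≠ p.2} =>
      ((Term.equal (Term.var (Sum.inr p.1.1)) (Term.var (Sum.inr p.1.2)) :
        L.Formula (γ ⊕ Fin (r + 1)))).not))).not

theorem atMost_realize {γ : Type} (r : ℕ) (α : L.Formula (Fin 1 ⊕ γ)) (v : γ → U) :
    (atMost r α).Realize v ↔ ¬ ∃ z : Fin (r + 1) → U,
      (∀ j, α.Realize (Sum.elim (fun _ => z j) v)) ∧ ∀ j k, j ≠ k → z j ≠ z k := by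
  simp only [atMost, Formula.realize_not, Formula.realize_iExs, Formula.realize_inf,
    Formula.realize_iInf, Formula.realize_relabel, Formula.realize_equal, Term.realize_var,
    Sum.elim_inr]
  refine not_congr (exists_congr fun z => and_congr ?_ ?_)
  · refine forall_congr' fun j => ?_
    have : (Sum.elim v z ∘ Sum.elim (fun _ => Sum.inr j) Sum.inl : Fin 1 ⊕ γ → U) =
        Sum.elim (fun _ => z j) v := by
      funext x
      rcases x with x | x <;> rfl
    rw [this]
  · constructor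
    · intro h j k hjk
      exact h ⟨(j, k), hjk⟩
    · rintro h ⟨⟨j, k⟩, hjk⟩
      exact h j k hjk

theorem finite_of_atMost {γ : Type} (r : ℕ) (α : L.Formula (Fin 1 ⊕ γ)) (v : γ → U)
    (h : (atMost r α).Realize v) : {y : U | α.Realize (Sum.elim (fun _ => y) v)}.Finite := by
  by_contra hinf
  have hinf' : {y : U | α.Realize (Sum.elim (fun _ => y) v)}.Infinite := hinf
  obtain ⟨f, hf⟩ := hinf'.exists_subset_card_eq (r + 1)
  rw [atMost_realize] at h
  apply h
  have e : Fin (r + 1) ≃ f := (Fintype.equivFinOfCardEq (by simp [hf.2])).symm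
  refine ⟨fun j => (e j : U), fun j => hf.1 (e j).2, fun j k hjk heq => hjk ?_⟩
  exact e.injective (Subtype.ext heq)

theorem exists_atMost {γ : Type} (α : L.Formula (Fin 1 ⊕ γ)) (v : γ → U)
    (h : {y : U | α.Realize (Sum.elim (fun _ => y) v)}.Finite) :
    ∃ r, (atMost r α).Realize v := by
  refine ⟨{y : U | α.Realize (Sum.elim (fun _ => y) v)}.ncard, ?_⟩
  rw [atMost_realize]
  rintro ⟨z, hz, hinj⟩
  have hz' : Function.Injective z := fun j k hjk => by
    by_contra hne
    exact hinj j k hne hjk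
  have h1 : (Set.range z).ncard ≤ {y : U | α.Realize (Sum.elim (fun _ => y) v)}.ncard :=
    Set.ncard_le_ncard (by
      rintro _ ⟨j, rfl⟩
      exact hz j) h
  have h2 : (Set.range z).ncard = {y : U | α.Realize (Sum.elim (fun _ => y) v)}.ncard + 1 := by
    rw [← Set.image_univ, Set.ncard_image_of_injective _ hz', Set.ncard_univ, Nat.card_eq_fintype_card,
      Fintype.card_fin]
  omega

theorem mkFml {P : Type} [Finite P] (φ : L.Formula (Fin n ⊕ P)) (par : P → U) :
    ∃ θ : Fml L n U, (∀ A : Set U, (∀ p, par p ∈ A) → θ.Over A) ∧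
      ∀ c, θ.Holds c ↔ φ.Realize (Sum.elim c par) := by
  obtain ⟨k, ⟨e⟩⟩ := Finite.exists_equiv_fin P
  refine ⟨⟨k, φ.relabel (Sum.map id e), par ∘ e.symm⟩, fun A hA i => hA _, fun c => ?_⟩
  simp only [Fml.Holds, Formula.realize_relabel]
  have : (Sum.elim c (par ∘ e.symm) ∘ Sum.map id e : Fin n ⊕ P → U) = Sum.elim c par := by
    funext x
    rcases x with x | x
    · rfl
    · simp
  rw [this]

/-- Suppose that in the monster model `U` Kim-independence over small models is algebraic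
independence. Let `(M_i)` be a chain of models with union the small model `N`. If a formula does
not Kim-fork over `M_i` for all `i`, then it does not Kim-fork over `N`. -/
theorem result (L : FirstOrder.Language.{0, 0}) (T : L.Theory) (κ : Cardinal.{0}) (U : Type)
    [L.Structure U] (hU : IsMonster T κ U)
    (hind : ∀ M : L.ElementarySubstructure U, #M < κ → ∀ (n m : ℕ) (c : Fin n → U)
      (a : Fin m → U), KimIndep L (M : Set U) c a ↔ AlgIndep L (M : Set U) c a)
    (ι : Type) [LinearOrder ι] [Nonempty ι]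
    (M : ι → L.ElementarySubstructure U) (hmono : ∀ i j, i ≤ j → (M i : Set U) ⊆ M j)
    (N : L.ElementarySubstructure U) (hN : (N : Set U) = ⋃ i, (M i : Set U)) (hcard : #N < κ)
    (n : ℕ) (ψ : Fml L n U) (hψ : ∀ i, ¬ KimForks (M i : Set U) ψ) :
    ¬ KimForks (N : Set U) ψ := by
  classical
  intro hfork
  have hs := hU.saturated
  have hκ := hU.uncountable
  have hsub : ∀ i, (M i : Set U) ⊆ (N : Set U) := fun i => by
    rw [hN]
    exact Set.subset_iUnion (fun i => (M i : Set U)) i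
  have hMc : ∀ i, #(M i) < κ := fun i =>
    lt_of_le_of_lt (mk_le_mk_of_subset (hsub i)) hcard
  have hcardA : ∀ (B : Set U), #B < κ → #(B ∪ Set.range ψ.par : Set U) < κ := by
    intro B hB
    refine lt_of_le_of_lt (mk_union_le _ _) (add_lt_of_lt hκ.le hB ?_)
    exact lt_of_le_of_lt (Set.countable_range ψ.par).le_aleph0 hκ
  -- the formulas forcing a common algebraic element
  let Ξ : Set (Fml L n U) := {ξ | ξ.Over ((N : Set U) ∪ Set.range ψ.par) ∧ ∃ i, ∀ c, ξ.Holds c →
    ∃ u, u ∉ (N : Set U) ∧ InAcl L ((M i : Set U) ∪ Set.range c) u ∧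
      InAcl L ((M i : Set U) ∪ Set.range ψ.par) u}
  have hcov : ∀ c, ψ.Holds c → ∃ ξ ∈ Ξ, ξ.Holds c := by
    intro c hc
    have h1 : ¬ KimIndep L (N : Set U) c ψ.par := fun h => h ψ (fun i => Or.inr ⟨i, rfl⟩) hc hfork
    rw [hind N hcard] at h1
    simp only [AlgIndep, not_forall] at h1
    obtain ⟨u, ⟨α, hα1, hα2, hα3⟩, ⟨β, hβ1, hβ2, hβ3⟩, hu⟩ := h1
    -- finite set of solutions of `β` in `N`
    let F : Set U := {v | v ∈ (N : Set U) ∧ β.Holds fun _ => v}
    have hF : F.Finite := hβ3.subset fun v hv => hv.2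
    haveI hFf : Finite F := hF.to_subtype
    let Pα : Type := {t : Fin α.len // α.par t ∈ (N : Set U)}
    have hσ : ∀ t : Fin α.len, ∃ s : Fin n ⊕ Pα, (∀ p : Pα, s = Sum.inr p → α.par p.1 = α.par t) ∧
        (∀ j, s = Sum.inl j → c j = α.par t) := by
      intro t
      by_cases h : α.par t ∈ (N : Set U)
      · refine ⟨Sum.inr ⟨t, h⟩, fun p hp => ?_, fun j hj => by simp at hj⟩
        have : (⟨t, h⟩ : Pα) = p := by simpa using hp
        rw [← this]
      · obtain ⟨j, hj⟩ := (hα1 t).resolve_left h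
        exact ⟨Sum.inl j, fun p hp => by simp at hp, fun j' hj' => by
          have : j = j' := by simpa using hj'
          rw [← this]
          exact hj⟩
    choose σ hσ1 hσ2 using hσ
    let τ : (Fin n → U) → Fin α.len → U := fun c' t =>
      Sum.elim c' (fun p : Pα => α.par p.1) (σ t)
    have hτc : τ c = α.par := by
      funext t
      show Sum.elim c (fun p : Pα => α.par p.1) (σ t) = α.par t
      rcases hx : σ t with j | p
      · exact hσ2 t j hx
      · exact hσ1 t p hx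
    let P : Type := Fin β.len ⊕ (F ⊕ Pα)
    haveI hPα : Finite Pα := inferInstanceAs (Finite {t : Fin α.len // α.par t ∈ (N : Set U)})
    haveI hPfin : Finite P := inferInstanceAs (Finite (Fin β.len ⊕ (F ⊕ Pα)))
    let par : P → U := Sum.elim β.par (Sum.elim (fun f => (f : U)) (fun p => α.par p.1))
    let ν : Fin n ⊕ Pα → Fin n ⊕ P := Sum.map id (Sum.inr ∘ Sum.inr)
    obtain ⟨r, hr⟩ := exists_atMost α.form α.par hα3
    let body : L.Formula ((Fin n ⊕ P) ⊕ Fin 1) :=
      (β.form.relabel (Sum.elim Sum.inr (fun t => Sum.inl (Sum.inr (Sum.inl t))))) ⊓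
      (Formula.iInf fun f : F => ((Term.equal (Term.var (Sum.inr 0))
        (Term.var (Sum.inl (Sum.inr (Sum.inr (Sum.inl f))))) : L.Formula ((Fin n ⊕ P) ⊕ Fin 1))).not) ⊓
      (α.form.relabel (Sum.elim Sum.inr (fun t => Sum.inl (ν (σ t)))))
    let φ : L.Formula (Fin n ⊕ P) := (Formula.iExs (Fin 1) body) ⊓
      atMost r (α.form.relabel (Sum.map id (fun t => ν (σ t))))
    have hν : ∀ (c' : Fin n → U) (t : Fin α.len), Sum.elim c' par (ν (σ t)) = τ c' t := by
      intro c' t
      show Sum.elim c' par (ν (σ t)) = Sum.elim c' (fun p : Pα => α.par p.1) (σ t)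
      rcases σ t with j | p <;> rfl
    have hφ : ∀ c' : Fin n → U, φ.Realize (Sum.elim c' par) ↔
        (∃ y : U, β.Holds (fun _ => y) ∧ (∀ f : F, y ≠ f) ∧
          α.form.Realize (Sum.elim (fun _ => y) (τ c'))) ∧
        (atMost r α.form).Realize (τ c') := by
      intro c'
      simp only [φ, body, Formula.realize_inf, Formula.realize_iExs, Formula.realize_iInf,
        Formula.realize_relabel, Formula.realize_not, Formula.realize_equal, Term.realize_var,
        Sum.elim_inr, Sum.elim_inl, atMost_realize]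
      refine and_congr ?_ ?_
      · constructor
        · rintro ⟨y, ⟨h1, h2⟩, h3⟩
          refine ⟨y 0, ?_, h2, ?_⟩
          · show β.form.Realize _
            convert h1 using 1
            funext x
            rcases x with x | x
            · show y 0 = y x
              congr 1
              exact (Fin.fin_one_eq_zero x).symm
            · rfl
          · convert h3 using 1
            funext x
            rcases x with x | x
            · show y 0 = y x
              congr 1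
              exact (Fin.fin_one_eq_zero x).symm
            · exact (hν c' x).symm
        · rintro ⟨y, h1, h2, h3⟩
          refine ⟨fun _ => y, ⟨?_, h2⟩, ?_⟩
          · change β.form.Realize _ at h1
            convert h1 using 1
            funext x
            rcases x with x | x <;> rfl
          · convert h3 using 1
            funext x
            rcases x with x | x
            · rfl
            · exact hν c' x
      · refine not_congr (exists_congr fun z => and_congr_left' (forall_congr' fun j => ?_))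
        have : (Sum.elim (fun _ => z j) (Sum.elim c' par) ∘ Sum.map id (fun t => ν (σ t)) :
            Fin 1 ⊕ Fin α.len → U) = Sum.elim (fun _ => z j) (τ c') := by
          funext x
          rcases x with x | x
          · rfl
          · exact hν c' x
        rw [this]
    obtain ⟨ξ, hξ1, hξ2⟩ := mkFml φ par
    have hfinpar : ∃ i, (∀ t, β.par t ∈ (N : Set U) → β.par t ∈ (M i : Set U)) ∧
        ∀ t, α.par t ∈ (N : Set U) → α.par t ∈ (M i : Set U) := by
      have hx : ∀ u : U, ∃ j, u ∈ (N : Set U) → u ∈ (M j : Set U) := by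
        intro u
        by_cases h : u ∈ (N : Set U)
        · rw [hN] at h
          obtain ⟨j, hj⟩ := Set.mem_iUnion.1 h
          exact ⟨j, fun _ => hj⟩
        · exact ⟨Classical.arbitrary ι, fun h' => absurd h' h⟩
      choose jj hjj using hx
      obtain ⟨k1, hk1⟩ := Finite.exists_le (fun t : Fin β.len => jj (β.par t))
      obtain ⟨k2, hk2⟩ := Finite.exists_le (fun t : Fin α.len => jj (α.par t))
      refine ⟨max k1 k2, fun t h => ?_, fun t h => ?_⟩
      · exact hmono _ _ ((hk1 t).trans (le_max_left _ _)) (hjj _ h)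
      · exact hmono _ _ ((hk2 t).trans (le_max_right _ _)) (hjj _ h)
    obtain ⟨i, hi1, hi2⟩ := hfinpar
    refine ⟨ξ, ⟨hξ1 _ ?_, i, ?_⟩, ?_⟩
    · rintro (t | f | p)
      · exact hβ1 t
      · exact Or.inl f.2.1
      · exact Or.inl p.2
    · intro c' hc'
      rw [hξ2, hφ] at hc'
      obtain ⟨⟨y, hy1, hy2, hy3⟩, hr'⟩ := hc'
      refine ⟨y, fun hyN => hy2 ⟨y, hyN, hy1⟩ rfl, ⟨⟨α.len, α.form, τ c'⟩, ?_, hy3, ?_⟩,
        ⟨β, ?_, hy1, hβ3⟩⟩
      · intro t
        show Sum.elim c' (fun p : Pα => α.par p.1) (σ t) ∈ _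
        rcases hx : σ t with j | p
        · exact Or.inr ⟨j, rfl⟩
        · exact Or.inl (hi2 p.1 p.2)
      · exact finite_of_atMost r α.form (τ c') hr'
      · intro t
        rcases hβ1 t with h | h
        · exact Or.inl (hi1 t h)
        · exact Or.inr h
    · rw [hξ2, hφ, hτc]
      exact ⟨⟨u, hβ2, fun f hf => hu (by rw [hf]; exact f.2.1), hα2⟩, hr⟩
  obtain ⟨s, hsΞ, hsfin, hscov⟩ := compact hs (hcardA _ hcard) ψ (fun i => Or.inr ⟨i, rfl⟩) Ξ
    (fun ξ h => h.1) hcov
  have hch : ∀ ξ : Fml L n U, ∃ i, ξ ∈ s → ∀ c, ξ.Holds c →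
    ∃ u, u ∉ (N : Set U) ∧ InAcl L ((M i : Set U) ∪ Set.range c) u ∧
      InAcl L ((M i : Set U) ∪ Set.range ψ.par) u := by
    intro ξ
    by_cases h : ξ ∈ s
    · obtain ⟨i, hi⟩ := (hsΞ h).2
      exact ⟨i, fun _ => hi⟩
    · exact ⟨Classical.arbitrary ι, fun h' => absurd h' h⟩
  choose ix hix using hch
  obtain ⟨i₀, hi₀⟩ : ∃ i₀, ∀ ξ ∈ s, ix ξ ≤ i₀ := by
    obtain ⟨k, hk⟩ := (hsfin.image ix).bddAbove
    exact ⟨k, fun ξ hξ => hk ⟨ξ, hξ, rfl⟩⟩
  have acl_mono : ∀ {A B : Set U} {u : U}, A ⊆ B → InAcl L A u → InAcl L B u := by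
    rintro A B u hAB ⟨θ, h1, h2, h3⟩
    exact ⟨θ, fun t => hAB (h1 t), h2, h3⟩
  have hcov2 : ∀ c, ψ.Holds c → ∃ θ ∈ {θ : Fml L n U | θ.Over ((M i₀ : Set U) ∪ Set.range ψ.par) ∧
      KimForks (M i₀ : Set U) θ}, θ.Holds c := by
    intro c hc
    obtain ⟨ξ, hξ, hξc⟩ := hscov c hc
    obtain ⟨u, hu1, hu2, hu3⟩ := hix ξ hξ c hξc
    have hle : (M (ix ξ) : Set U) ⊆ M i₀ := hmono _ _ (hi₀ ξ hξ)
    have hna : ¬ AlgIndep L (M i₀ : Set U) c ψ.par := by
      intro h
      exact hu1 (hsub i₀ (h u (acl_mono (Set.union_subset_union_left _ hle) hu2)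
        (acl_mono (Set.union_subset_union_left _ hle) hu3)))
    rw [← hind (M i₀) (hMc i₀)] at hna
    simp only [KimIndep, not_forall, not_not] at hna
    obtain ⟨θ, h1, h2, h3⟩ := hna
    exact ⟨θ, ⟨h1, h3⟩, h2⟩
  obtain ⟨s2, hs2, hs2fin, hs2cov⟩ := compact hs (hcardA _ (hMc i₀)) ψ (fun i => Or.inr ⟨i, rfl⟩) _
    (fun ξ h => h.1) hcov2
  refine hψ i₀ ?_
  have hk : ∀ θ : Fml L n U, ∃ t : Set (Fml L n U), θ ∈ s2 → (t.Finite ∧
      (∀ θ' ∈ t, KimDivides (M i₀ : Set U) θ') ∧ ∀ a, θ.Holds a → ∃ θ' ∈ t, θ'.Holds a) := by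
    intro θ
    by_cases h : θ ∈ s2
    · obtain ⟨t, h1, h2, h3⟩ := (hs2 h).2
      exact ⟨t, fun _ => ⟨h1, h2, h3⟩⟩
    · exact ⟨∅, fun h' => absurd h' h⟩
  choose tt htt using hk
  refine ⟨⋃ θ ∈ s2, tt θ, hs2fin.biUnion fun θ hθ => (htt θ hθ).1, ?_, ?_⟩
  · intro θ' hθ'
    simp only [Set.mem_iUnion] at hθ'
    obtain ⟨θ, hθ, h⟩ := hθ'
    exact (htt θ hθ).2.1 θ' h
  · intro a ha
    obtain ⟨θ, hθ, hθa⟩ := hs2cov a ha
    obtain ⟨θ', h1, h2⟩ := (htt θ hθ).2.2 a hθa
    exact ⟨θ', by simp only [Set.mem_iUnion]; exact ⟨θ, hθ, h1⟩, h2⟩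

end Pool.Agent.Results.MP_d72a0c_lc.AlgebraicKimChain
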