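import Pool.Agent.helper968_kim.Defs
import Mathlib.Order.Filter.Ultrafilter.Basic
import Mathlib.Data.Fintype.Order

/-!
Kim-dividing over the union of a chain of models: the pairwise inconsistent case.

The definitions of `Fml`, `IsTypeOver`, `IsInvariantType`, `IsMorley`, `KimDivides`, `IsMonster`
are in `Pool.Agent.helper968_kim.Defs` (namespace `SKF`).
-/

namespace Pool.Agent.Results.MP_d72a0c_lc.PairwiseChain

open FirstOrder FirstOrder.Language Cardinal SKF

variable {L : FirstOrder.Language.{0, 0}} {U : Type} [L.Structure U] {n l : ℕ}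

/-- `q` is a global type finitely satisfiable in `A`. -/
def IsCoheir (A : Set U) (q : Set (Fml L n U)) : Prop :=
  IsTypeOver Set.univ q ∧ ∀ θ ∈ q, ∃ a : Fin n → U, (∀ t, a t ∈ A) ∧ θ.Holds a

/-- The formula `φ(x, c)` *pairwise Kim-divides* over `M`: for every global type `q` extending
`tp(c / M)` which is finitely satisfiable in `M` and every Morley sequence `(b_i)` in `q` over `M`
the pair `{φ(x, b_0), φ(x, b_1)}` is inconsistent. -/
def PairKimDivides (M : Set U) (ψ : Fml L n U) : Prop :=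
  ∀ q : Set (Fml L ψ.len U), IsCoheir M q →
    (∀ θ : Fml L ψ.len U, θ.Over M → θ.Holds ψ.par → θ ∈ q) →
    ∀ b : ℕ → Fin ψ.len → U, IsMorley M q b →
      ¬ ∃ a : Fin n → U, ψ.form.Realize (Sum.elim a (b 0)) ∧ ψ.form.Realize (Sum.elim a (b 1))

/-- The average type of an ultrafilter on `n`-tuples. -/
def av (L : FirstOrder.Language.{0, 0}) {U : Type} [L.Structure U] {n : ℕ}
    (D : Ultrafilter (Fin n → U)) : Set (Fml L n U) := {θ | {b | θ.Holds b} ∈ D}

theorem av_type (D : Ultrafilter (Fin n → U)) : IsTypeOver Set.univ (av L D) where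
  par_mem := fun ψ _ i => Set.mem_univ _
  finSat := by
    intro s hs hsub
    have h : (⋂ θ ∈ s, {b | Fml.Holds θ b}) ∈ D :=
      (Filter.biInter_mem hs).2 fun θ hθ => hsub hθ
    obtain ⟨b, hb⟩ := D.nonempty_of_mem h
    refine ⟨b, fun θ hθ => ?_⟩
    simp only [Set.mem_iInter] at hb
    exact hb θ hθ
  complete := by
    intro ψ _
    rcases D.mem_or_compl_mem {b | ψ.Holds b} with h | h
    · exact Or.inl h
    · refine Or.inr ?_
      have : {b | ψ.neg.Holds b} = {b | ψ.Holds b}ᶜ := by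
        ext b
        simp [Fml.Holds, Fml.neg]
      show {b | ψ.neg.Holds b} ∈ D
      rw [this]
      exact h

theorem av_coheir {A : Set U} {D : Ultrafilter (Fin n → U)} (hA : {b | ∀ t, b t ∈ A} ∈ D) :
    IsCoheir A (av L D) := by
  refine ⟨av_type D, fun θ hθ => ?_⟩
  obtain ⟨b, h1, h2⟩ := D.nonempty_of_mem (Filter.inter_mem hA hθ)
  exact ⟨b, h1, h2⟩

theorem av_invariant {A : Set U} {D : Ultrafilter (Fin n → U)} (hA : {b | ∀ t, b t ∈ A} ∈ D) :
    IsInvariantType A (av L D) where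
  isType := av_type D
  invariant := by
    intro k φ c c' h
    have key : ∀ b : Fin n → U, (∀ t, b t ∈ A) →
        ((⟨k, φ, c⟩ : Fml L n U).Holds b ↔ (⟨k, φ, c'⟩ : Fml L n U).Holds b) := by
      intro b hb
      have h1 := h ⟨n, φ.relabel Sum.swap, b⟩ hb
      have h2 : ∀ d : Fin k → U, (⟨n, φ.relabel Sum.swap, b⟩ : Fml L k U).Holds d ↔
          φ.Realize (Sum.elim b d) := by
        intro d
        simp only [Fml.Holds, Formula.realize_relabel]
        have : (Sum.elim d b ∘ Sum.swap : Fin n ⊕ Fin k → U) = Sum.elim b d := by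
          funext x
          rcases x with x | x <;> rfl
        rw [this]
      rw [h2, h2] at h1
      exact h1
    constructor
    · intro h1
      refine Filter.mem_of_superset (Filter.inter_mem hA h1) ?_
      rintro b ⟨hb1, hb2⟩
      exact (key b hb1).1 hb2
    · intro h1
      refine Filter.mem_of_superset (Filter.inter_mem hA h1) ?_
      rintro b ⟨hb1, hb2⟩
      exact (key b hb1).2 hb2

theorem exists_seq {X Y : Type} (g : Set X → Y) (A : Set X) (r : Y → Set X) :
    ∃ f : ℕ → Y, ∀ i, f i = g (A ∪ {u | ∃ j < i, u ∈ r (f j)}) := by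
  let F : (i : ℕ) → (∀ j < i, Y) → Y := fun i f => g (A ∪ {u | ∃ (j : ℕ) (hj : j < i), u ∈ r (f j hj)})
  let f : ℕ → Y := fun i => WellFounded.fix (C := fun _ => Y) Nat.lt_wfRel.wf F i
  have hf : ∀ i, f i = F i (fun j _ => f j) := fun i => WellFounded.fix_eq _ _ _
  refine ⟨f, fun i => ?_⟩
  rw [hf i]
  show g _ = g _
  congr 2
  ext u
  simp only [exists_prop]

theorem realises {A : Set U} {q : Set (Fml L n U)} (hq : IsTypeOver Set.univ q) {c : Fin n → U}
    (hc : ∀ θ : Fml L n U, θ.Over A → θ.Holds c → θ ∈ q) :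
    ∀ θ ∈ q, θ.Over A → θ.Holds c := by
  intro θ hθ hA
  by_contra hcon
  have h1 : θ.neg ∈ q := hc θ.neg hA (by simpa [Fml.Holds, Fml.neg] using hcon)
  obtain ⟨a, ha⟩ := hq.finSat {θ, θ.neg} (by simp) (by
    rintro x (rfl | rfl)
    · exact hθ
    · exact h1)
  have h2 := ha θ (by simp)
  have h3 := ha θ.neg (by simp)
  simp only [Fml.Holds, Fml.neg, Formula.realize_not] at h2 h3
  exact h3 h2

theorem exists_morley {κ : Cardinal.{0}} (hs : IsSaturated L κ U) (hκ : ℵ₀ < κ) {A : Set U}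
    (hA : #A < κ) {q : Set (Fml L n U)} (hq : IsTypeOver Set.univ q) {c : Fin n → U}
    (hc : ∀ θ : Fml L n U, θ.Over A → θ.Holds c → θ ∈ q) :
    ∃ b : ℕ → Fin n → U, IsMorley A q b ∧ b 0 = c := by
  classical
  have hex : ∀ C : Set U, #C < κ → ∃ a : Fin n → U, ∀ θ ∈ q, θ.Over C → θ.Holds a := by
    intro C hC
    obtain ⟨a, ha⟩ := hs C hC n {θ | θ ∈ q ∧ θ.Over C} (fun θ h => h.2) (by
      intro s hs' hsub
      exact hq.finSat s hs' (fun θ hθ => (hsub hθ).1))
    exact ⟨a, fun θ h1 h2 => ha θ ⟨h1, h2⟩⟩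
  let g : Set U → (Fin n → U) := fun C =>
    if C = A then c else if h : ∃ a : Fin n → U, ∀ θ ∈ q, θ.Over C → θ.Holds a then h.choose else c
  have hg : ∀ C : Set U, #C < κ → ∀ θ ∈ q, θ.Over C → θ.Holds (g C) := by
    intro C hC
    by_cases h : C = A
    · subst h
      have : g C = c := by simp [g]
      rw [this]
      exact realises hq hc
    · have hx := hex C hC
      have : g C = hx.choose := by
        simp only [g, h, if_false]
        rw [dif_pos hx]
      rw [this]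
      exact hx.choose_spec
  obtain ⟨f, hf⟩ := exists_seq g A (fun y : Fin n → U => Set.range y)
  have hset : ∀ i, {u | ∃ j < i, u ∈ Set.range (f j)} = {u | ∃ j < i, ∃ t, u = f j t} := by
    intro i
    ext u
    simp only [Set.mem_range, eq_comm]
  refine ⟨f, ?_, ?_⟩
  · intro i θ hθ hov
    rw [hf i, hset i]
    refine hg _ ?_ θ hθ hov
    have hcount : {u | ∃ j < i, ∃ t, u = f j t}.Countable := by
      have : {u | ∃ j < i, ∃ t, u = f j t} ⊆ Set.range (fun p : ℕ × Fin n => f p.1 p.2) := by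
        rintro u ⟨j, _, t, rfl⟩
        exact ⟨(j, t), rfl⟩
      exact (Set.countable_range _).mono this
    refine lt_of_le_of_lt (mk_union_le _ _) ?_
    exact add_lt_of_lt hκ.le hA (lt_of_le_of_lt hcount.le_aleph0 hκ)
  · have h0 := hf 0
    have : (A ∪ {u | ∃ j < 0, u ∈ Set.range (f j)}) = A := by
      ext u
      simp
    rw [this] at h0
    rw [h0]
    simp [g]

theorem tv (M : L.ElementarySubstructure U) (θ : Fml L n U) (hθ : θ.Over (M : Set U))
    {c : Fin n → U} (h : θ.Holds c) : ∃ b : Fin n → U, (∀ t, b t ∈ (M : Set U)) ∧ θ.Holds b := by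
  let p' : Fin θ.len → M := fun i => ⟨θ.par i, hθ i⟩
  let φ : L.Formula (Fin θ.len) := (θ.form.relabel Sum.swap : L.Formula (Fin θ.len ⊕ Fin n)).iExs (Fin n)
  have hswap : ∀ (a : Fin n → U), (Sum.elim θ.par a ∘ Sum.swap : Fin n ⊕ Fin θ.len → U) =
      Sum.elim a θ.par := by
    intro a
    funext x
    rcases x with x | x <;> rfl
  have h1 : φ.Realize θ.par := by
    rw [Formula.realize_iExs]
    refine ⟨c, ?_⟩
    rw [Formula.realize_relabel, hswap]
    exact h
  have h2 : φ.Realize p' := (M.subtype.map_formula φ p').1 h1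
  rw [Formula.realize_iExs] at h2
  obtain ⟨b, hb⟩ := h2
  rw [Formula.realize_relabel] at hb
  have hb' : θ.form.Realize (Sum.elim b p') := by
    convert hb using 1
    funext x
    rcases x with x | x <;> rfl
  have hb2 := (M.subtype.map_formula θ.form (Sum.elim b p')).2 hb'
  refine ⟨fun t => b t, fun t => (b t).2, ?_⟩
  show θ.form.Realize _
  convert hb2 using 1
  funext x
  rcases x with x | x <;> rfl

/-- Conjunction of two formulas with parameters. -/
def conj (θ₁ θ₂ : Fml L n U) : Fml L n U :=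
  ⟨θ₁.len + θ₂.len, θ₁.form.relabel (Sum.map id (Fin.castAdd _)) ⊓
    θ₂.form.relabel (Sum.map id (Fin.natAdd _)), Fin.append θ₁.par θ₂.par⟩

theorem conj_holds (θ₁ θ₂ : Fml L n U) (a : Fin n → U) :
    (conj θ₁ θ₂).Holds a ↔ θ₁.Holds a ∧ θ₂.Holds a := by
  simp only [conj, Fml.Holds, Formula.realize_inf, Formula.realize_relabel]
  have e1 : (Sum.elim a (Fin.append θ₁.par θ₂.par) ∘ Sum.map id (Fin.castAdd θ₂.len) :
      Fin n ⊕ Fin θ₁.len → U) = Sum.elim a θ₁.par := by
    funext x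
    rcases x with x | x
    · rfl
    · simp
  have e2 : (Sum.elim a (Fin.append θ₁.par θ₂.par) ∘ Sum.map id (Fin.natAdd θ₁.len) :
      Fin n ⊕ Fin θ₂.len → U) = Sum.elim a θ₂.par := by
    funext x
    rcases x with x | x
    · rfl
    · simp
  rw [e1, e2]

omit [L.Structure U] in
theorem conj_over {A : Set U} {θ₁ θ₂ : Fml L n U} (h₁ : θ₁.Over A) (h₂ : θ₂.Over A) :
    (conj θ₁ θ₂).Over A := by
  intro i
  refine Fin.addCases (fun j => ?_) (fun j => ?_) i
  · show Fin.append θ₁.par θ₂.par _ ∈ A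
    rw [Fin.append_left]
    exact h₁ j
  · show Fin.append θ₁.par θ₂.par _ ∈ A
    rw [Fin.append_right]
    exact h₂ j

/-- Over a model each type is the restriction of the average of an ultrafilter on the model. -/
theorem exists_av (M : L.ElementarySubstructure U) (c : Fin n → U) :
    ∃ D : Ultrafilter (Fin n → U), {b | ∀ t, b t ∈ (M : Set U)} ∈ D ∧
      ∀ θ : Fml L n U, θ.Over (M : Set U) → θ.Holds c → θ ∈ av L D := by
  let S : Set (Set (Fin n → U)) :=
    {s | ∃ θ : Fml L n U, θ.Over (M : Set U) ∧ θ.Holds c ∧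
      s = {b | (∀ t, b t ∈ (M : Set U)) ∧ θ.Holds b}}
  have key : ∀ T : Finset (Set (Fin n → U)), (T : Set (Set (Fin n → U))) ⊆ S →
      ∃ θ : Fml L n U, θ.Over (M : Set U) ∧ θ.Holds c ∧
        {b | (∀ t, b t ∈ (M : Set U)) ∧ θ.Holds b} ⊆ ⋂₀ (T : Set (Set (Fin n → U))) := by
    classical
    intro T
    induction T using Finset.induction_on with
    | empty =>
      intro _
      refine ⟨⟨0, ⊤, Fin.elim0⟩, fun i => i.elim0, ?_, ?_⟩
      · simp [Fml.Holds, Formula.Realize]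
      · simp
    | insert s T _ ih =>
      intro hsub
      obtain ⟨θ, h1, h2, h3⟩ := ih (fun x hx => hsub (by simp [Finset.mem_coe.1 hx]))
      obtain ⟨θ', h1', h2', rfl⟩ := hsub (show s ∈ ((insert s T : Finset _) : Set _) by simp)
      refine ⟨conj θ' θ, conj_over h1' h1, (conj_holds _ _ _).2 ⟨h2', h2⟩, ?_⟩
      rintro b ⟨hb1, hb2⟩
      rw [conj_holds] at hb2
      rw [Finset.coe_insert, Set.sInter_insert]
      exact ⟨⟨hb1, hb2.1⟩, h3 ⟨hb1, hb2.2⟩⟩
  obtain ⟨D, hD⟩ := Ultrafilter.exists_ultrafilter_of_finite_inter_nonempty S (by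
    intro T hT
    obtain ⟨θ, h1, h2, h3⟩ := key T hT
    obtain ⟨b, hb1, hb2⟩ := tv M θ h1 h2
    exact ⟨b, h3 ⟨hb1, hb2⟩⟩)
  refine ⟨D, ?_, ?_⟩
  · have : {b | (∀ t, b t ∈ (M : Set U)) ∧ (⟨0, ⊤, Fin.elim0⟩ : Fml L n U).Holds b} ∈ D :=
      hD ⟨⟨0, ⊤, Fin.elim0⟩, fun i => i.elim0, by simp [Fml.Holds, Formula.Realize], rfl⟩
    exact Filter.mem_of_superset this fun b hb => hb.1
  · intro θ h1 h2
    have : {b | (∀ t, b t ∈ (M : Set U)) ∧ θ.Holds b} ∈ D := hD ⟨θ, h1, h2, rfl⟩
    exact Filter.mem_of_superset this fun b hb => hb.2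

/-- The formula `∃ x (φ(x, z) ∧ φ(x, y))` with `y` the free variables and `z` the parameters. -/
noncomputable def pairFml (φ : L.Formula (Fin n ⊕ Fin l)) (c : Fin l → U) : Fml L l U :=
  ⟨l, (((φ.relabel (Sum.elim Sum.inr (Sum.inl ∘ Sum.inr)) : L.Formula ((Fin l ⊕ Fin l) ⊕ Fin n)) ⊓
    (φ.relabel (Sum.elim Sum.inr (Sum.inl ∘ Sum.inl)) : L.Formula ((Fin l ⊕ Fin l) ⊕ Fin n))).iExs
      (Fin n)), c⟩

theorem pairFml_holds (φ : L.Formula (Fin n ⊕ Fin l)) (c y : Fin l → U) :
    (pairFml φ c).Holds y ↔ ∃ a : Fin n → U, φ.Realize (Sum.elim a c) ∧ φ.Realize (Sum.elim a y) := by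
  simp only [pairFml, Fml.Holds, Formula.realize_iExs, Formula.realize_inf, Formula.realize_relabel]
  refine exists_congr fun a => ?_
  have e1 : (Sum.elim (Sum.elim y c) a ∘ Sum.elim Sum.inr (Sum.inl ∘ Sum.inr) :
      Fin n ⊕ Fin l → U) = Sum.elim a c := by
    funext x
    rcases x with x | x <;> rfl
  have e2 : (Sum.elim (Sum.elim y c) a ∘ Sum.elim Sum.inr (Sum.inl ∘ Sum.inl) :
      Fin n ⊕ Fin l → U) = Sum.elim a y := by
    funext x
    rcases x with x | x <;> rfl
  rw [e1, e2]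

/-- If `φ(x, c)` does not Kim-divide over the model `M`, then there is an ultrafilter on `M` whose
average extends `tp(c / M)` and contains `∃ x (φ(x, c) ∧ φ(x, y))`. -/
theorem of_not_kimDivides {κ : Cardinal.{0}} (hs : IsSaturated L κ U) (hκ : ℵ₀ < κ)
    (M : L.ElementarySubstructure U) (hM : #M < κ) (ψ : Fml L n U)
    (h : ¬ KimDivides (M : Set U) ψ) :
    ∃ D : Ultrafilter (Fin ψ.len → U), {b | ∀ t, b t ∈ (M : Set U)} ∈ D ∧
      (∀ θ : Fml L ψ.len U, θ.Over (M : Set U) → θ.Holds ψ.par → θ ∈ av L D) ∧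
      pairFml ψ.form ψ.par ∈ av L D := by
  obtain ⟨D, h1, h2⟩ := exists_av M ψ.par
  refine ⟨D, h1, h2, ?_⟩
  obtain ⟨b, hb, hb0⟩ := exists_morley hs hκ (show #(M : Set U) < κ from hM) (av_type D) h2
  have hfin : FinSat (Set.range fun i => (⟨ψ.len, ψ.form, b i⟩ : Fml L n U)) := by
    by_contra hcon
    exact h ⟨av L D, av_invariant h1, h2, b, hb, hcon⟩
  obtain ⟨a, ha⟩ := hfin {⟨ψ.len, ψ.form, b 0⟩, ⟨ψ.len, ψ.form, b 1⟩} (by simp) (by
    rintro x (rfl | rfl)
    · exact ⟨0, rfl⟩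
    · exact ⟨1, rfl⟩)
  have hp : (pairFml ψ.form ψ.par).Holds (b 1) := by
    rw [pairFml_holds]
    refine ⟨a, ?_, ?_⟩
    · have := ha ⟨ψ.len, ψ.form, b 0⟩ (by simp)
      rw [← hb0]
      exact this
    · exact ha ⟨ψ.len, ψ.form, b 1⟩ (by simp)
  rcases (av_type (L := L) D).complete (pairFml ψ.form ψ.par) (fun _ => Set.mem_univ _) with h3 | h3
  · exact h3
  · exfalso
    have h4 := hb 1 _ h3 (by
      intro t
      right
      refine ⟨0, Nat.one_pos, t, ?_⟩
      rw [hb0]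
      rfl)
    simp only [Fml.Holds, Fml.neg, Formula.realize_not] at h4
    exact h4 hp

/-- Let `(M_i)` be a chain of small models with union the small model `N`. If `φ(x, c)` pairwise
Kim-divides over `N`, then `φ(x, c)` Kim-divides over `M_i` for all large `i`. -/
theorem result (L : FirstOrder.Language.{0, 0}) (T : L.Theory) (κ : Cardinal.{0}) (U : Type)
    [L.Structure U] (hU : IsMonster T κ U) (ι : Type) [LinearOrder ι] [Nonempty ι]
    (M : ι → L.ElementarySubstructure U) (hmono : ∀ i j, i ≤ j → (M i : Set U) ⊆ M j)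
    (N : L.ElementarySubstructure U) (hN : (N : Set U) = ⋃ i, (M i : Set U)) (hcard : #N < κ)
    (n : ℕ) (ψ : Fml L n U) (hψ : PairKimDivides (N : Set U) ψ) :
    ∃ i₀, ∀ i, i₀ ≤ i → KimDivides (M i : Set U) ψ := by
  classical
  by_contra hcon
  push Not at hcon
  have hs := hU.saturated
  have hκ := hU.uncountable
  have hsub : ∀ i, (M i : Set U) ⊆ (N : Set U) := fun i => by
    rw [hN]
    exact Set.subset_iUnion (fun i => (M i : Set U)) i
  have hMc : ∀ i, #(M i) < κ := fun i =>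
    lt_of_le_of_lt (mk_le_mk_of_subset (hsub i)) hcard
  let S : Set ι := {i | ¬ KimDivides (M i : Set U) ψ}
  have hne : (Filter.atTop ⊓ Filter.principal S : Filter ι).NeBot := by
    rw [← Filter.frequently_mem_iff_neBot]
    rw [Filter.frequently_atTop]
    intro i₀
    obtain ⟨i, h1, h2⟩ := hcon i₀
    exact ⟨i, h1, h2⟩
  let V : Ultrafilter ι := Ultrafilter.of (Filter.atTop ⊓ Filter.principal S)
  have hVS : S ∈ V := (Ultrafilter.of_le _) (Filter.mem_inf_of_right (Filter.mem_principal_self S))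
  have hVi : ∀ j, {i | j ≤ i} ∈ V := fun j =>
    (Ultrafilter.of_le _) (Filter.mem_inf_of_left (Filter.mem_atTop j))
  have hex : ∀ i, ∃ D : Ultrafilter (Fin ψ.len → U), i ∈ S → ({b | ∀ t, b t ∈ (M i : Set U)} ∈ D ∧
      (∀ θ : Fml L ψ.len U, θ.Over (M i : Set U) → θ.Holds ψ.par → θ ∈ av L D) ∧
      pairFml ψ.form ψ.par ∈ av L D) := by
    intro i
    by_cases hi : i ∈ S
    · obtain ⟨D, hD⟩ := of_not_kimDivides hs hκ (M i) (hMc i) ψ hi
      exact ⟨D, fun _ => hD⟩
    · exact ⟨pure ψ.par, fun h => absurd h hi⟩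
  choose D hD using hex
  let E : Ultrafilter (Fin ψ.len → U) := V.bind D
  have hE : ∀ s : Set (Fin ψ.len → U), {i | s ∈ D i} ∈ V → s ∈ E := fun s h => h
  have hE1 : {b | ∀ t, b t ∈ (N : Set U)} ∈ E := by
    refine hE _ (Filter.mem_of_superset hVS fun i hi => ?_)
    exact Filter.mem_of_superset (hD i hi).1 fun b hb t => hsub i (hb t)
  have hE2 : ∀ θ : Fml L ψ.len U, θ.Over (N : Set U) → θ.Holds ψ.par → θ ∈ av L E := by
    intro θ hθ hh
    have h1 : ∀ t, ∃ j, θ.par t ∈ (M j : Set U) := by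
      intro t
      have := hθ t
      rw [hN] at this
      exact Set.mem_iUnion.1 this
    choose j hj using h1
    obtain ⟨k, hk⟩ := Finite.exists_le j
    refine hE _ (Filter.mem_of_superset (Filter.inter_mem hVS (hVi k)) ?_)
    rintro i ⟨hi1, hi2⟩
    exact (hD i hi1).2.1 θ (fun t => hmono _ _ ((hk t).trans hi2) (hj t)) hh
  have hE3 : pairFml ψ.form ψ.par ∈ av L E := by
    refine hE _ (Filter.mem_of_superset hVS fun i hi => ?_)
    exact (hD i hi).2.2
  obtain ⟨b, hb, hb0⟩ := exists_morley hs hκ (show #(N : Set U) < κ from hcard) (av_type E) hE2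
  refine hψ (av L E) (av_coheir hE1) hE2 b hb ?_
  have h4 := hb 1 _ hE3 (by
    intro t
    right
    refine ⟨0, Nat.one_pos, t, ?_⟩
    rw [hb0]
    rfl)
  rw [pairFml_holds] at h4
  obtain ⟨a, ha1, ha2⟩ := h4
  exact ⟨a, by rw [hb0]; exact ha1, ha2⟩

end Pool.Agent.Results.MP_d72a0c_lc.PairwiseChain
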